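import Mathlib
import Pool.Agent.H85.LamA

namespace Pool.Agent.Results.MP_939d63_gt.Wreath

open Set Real Filter Topology Metric Pool.Agent.H85.LamA

/-- the endpoints of `p` separate the endpoints of `q` on the circle -/
def Linked (p q : Circle × Circle) : Prop :=
  q.1 ∉ ({p.1, p.2} : Set Circle) ∧ q.2 ∉ ({p.1, p.2} : Set Circle) ∧
    q.2 ∉ connectedComponentIn ({p.1, p.2} : Set Circle)ᶜ q.1

/-- laminations: unordered pairs are recorded as a symmetric set of ordered pairs -/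
structure IsLamination (Λ : Set (Circle × Circle)) : Prop where
  nonempty : Λ.Nonempty
  symm : ∀ p ∈ Λ, p.swap ∈ Λ
  ne : ∀ p ∈ Λ, p.1 ≠ p.2
  closed : ∀ p ∈ closure Λ, p.1 ≠ p.2 → p ∈ Λ
  unlinked : ∀ p ∈ Λ, ∀ q ∈ Λ, ¬ Linked p q

/-- the open disc minus the leaves (Klein model: geodesics are chords) -/
def off (Λ : Set (Circle × Circle)) : Set ℂ :=
  ball 0 1 \ ⋃ p ∈ Λ, openSegment ℝ (p.1 : ℂ) (p.2 : ℂ)

/-- every gap is the convex hull of finitely many, at least three, points of the circle -/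
def VeryFull (Λ : Set (Circle × Circle)) : Prop :=
  ∀ z ∈ off Λ, ∃ S : Finset Circle, 3 ≤ S.card ∧
    closure (connectedComponentIn (off Λ) z) = convexHull ℝ ((↑) '' (S : Set Circle) : Set ℂ)

/-- twice the signed area of the triangle `p q r` -/
def det (p q r : ℂ) : ℝ := (q.re - p.re) * (r.im - p.im) - (q.im - p.im) * (r.re - p.re)

/-- `g` preserves counterclockwise triples -/
def OrPres (g : Circle ≃ₜ Circle) : Prop :=
  ∀ p q r : Circle, 0 < det p q r → 0 < det (g p) (g q) (g r)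

noncomputable def c (u : ℝ) : Circle := Circle.exp (2 * π * u)

lemma c_cont : Continuous c := by unfold c; fun_prop

lemma c_re (u : ℝ) : (c u : ℂ).re = cos (2 * π * u) := by
  rw [c, Circle.coe_exp, Complex.exp_ofReal_mul_I_re]

lemma c_im (u : ℝ) : (c u : ℂ).im = sin (2 * π * u) := by
  rw [c, Circle.coe_exp, Complex.exp_ofReal_mul_I_im]

lemma c_add (u : ℝ) (n : ℤ) : c (u + n) = c u := Circle.exp_eq_exp.2 ⟨n, by ring⟩

lemma c_inj {u v : ℝ} (h : c u = c v) (h1 : u - v < 1) (h2 : v - u < 1) : u = v := by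
  obtain ⟨m, hm⟩ := Circle.exp_eq_exp.1 h
  have : u = v + m := mul_left_cancel₀ two_pi_pos.ne' (by linarith)
  have h3 : m < 1 := by exact_mod_cast (show (m : ℝ) < 1 by linarith)
  have h4 : -1 < m := by exact_mod_cast (show (-1 : ℝ) < m by linarith)
  obtain rfl : m = 0 := by omega
  simpa using this

lemma c_surj (p : Circle) : ∃ u, 0 ≤ u ∧ u < 1 ∧ c u = p := by
  obtain ⟨x, rfl⟩ := Circle.exp_surjective p
  refine ⟨Int.fract (x / (2 * π)), Int.fract_nonneg _, Int.fract_lt_one _, ?_⟩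
  rw [← c_add _ ⌊x / (2 * π)⌋, Int.fract_add_floor, c, mul_div_cancel₀ _ two_pi_pos.ne']

noncomputable def s (a b : ℝ) (z : ℂ) : ℝ :=
  z.re * cos (π * (a + b)) + z.im * sin (π * (a + b)) - cos (π * (b - a))

lemma det_eq (a b : ℝ) (z : ℂ) : det (c a) (c b) z = -2 * sin (π * (b - a)) * s a b z := by
  rw [det, s, c_re, c_re, c_im, c_im, show 2 * π * a = π * (a + b) - π * (b - a) by ring,
    show 2 * π * b = π * (a + b) + π * (b - a) by ring, cos_add, cos_sub, sin_add, sin_sub]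
  linear_combination 2 * sin (π * (b - a)) * cos (π * (b - a)) * sin_sq_add_cos_sq (π * (a + b))

lemma s_c (a b u : ℝ) : s a b (c u) = 2 * sin (π * (u - a)) * sin (π * (b - u)) := by
  rw [s, c_re, c_im, ← cos_sub, cos_sub_cos, show (2 * π * u - π * (a + b) - π * (b - a)) / 2 =
    -(π * (b - u)) by ring, sin_neg, show (2 * π * u - π * (a + b) + π * (b - a)) / 2 =
    π * (u - a) by ring]
  ring

lemma s_le (a b : ℝ) (z : ℂ) : s a b z ≤ ‖z‖ - cos (π * (b - a)) := by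
  rw [s, sub_le_sub_iff_right]
  refine le_of_sq_le_sq ?_ (norm_nonneg z)
  rw [Complex.sq_norm, Complex.normSq_apply]
  nlinarith [sin_sq_add_cos_sq (π * (a + b)),
    sq_nonneg (z.re * sin (π * (a + b)) - z.im * cos (π * (a + b)))]

lemma s_seg (a b : ℝ) {p q z : ℂ} (h : z ∈ openSegment ℝ p q) :
    ∃ x y : ℝ, 0 < x ∧ 0 < y ∧ x + y = 1 ∧ s a b z = x * s a b p + y * s a b q := by
  obtain ⟨x, y, hx, hy, hxy, rfl⟩ := h
  refine ⟨x, y, hx, hy, hxy, ?_⟩
  simp only [s, Complex.add_re, Complex.add_im, Complex.smul_re, Complex.smul_im, smul_eq_mul]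
  linear_combination cos (π * (b - a)) * hxy

lemma sin_pos' {x : ℝ} (h0 : 0 < x) (h1 : x < 1) : 0 < sin (π * x) :=
  sin_pos_of_pos_of_lt_pi (by positivity) (by nlinarith [pi_pos])

lemma sin_nn {x : ℝ} (h0 : 0 ≤ x) (h1 : x ≤ 1) : 0 ≤ sin (π * x) :=
  sin_nonneg_of_nonneg_of_le_pi (by positivity) (by nlinarith [pi_pos])

lemma sin_np {x : ℝ} (h0 : x ≤ 0) (h1 : -1 ≤ x) : sin (π * x) ≤ 0 := by
  have := sin_nn (x := -x) (by linarith) (by linarith)
  rw [mul_neg, sin_neg] at this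
  linarith

lemma sign_sin {x : ℝ} (h0 : -1 < x) (h1 : x < 1) : SignType.sign (sin (π * x)) = SignType.sign x := by
  rcases lt_trichotomy x 0 with h | rfl | h
  · have := sin_pos' (x := -x) (by linarith) (by linarith)
    rw [mul_neg, sin_neg] at this
    rw [sign_neg h, sign_neg (by linarith)]
  · simp
  · rw [sign_pos h, sign_pos (sin_pos' h h1)]

lemma s_in {a b u : ℝ} (h0 : 0 ≤ a) (h1 : a ≤ u) (h2 : u ≤ b) (h3 : b ≤ 1) : 0 ≤ s a b (c u) := by
  rw [s_c]
  have := sin_nn (x := u - a) (by linarith) (by linarith)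
  have := sin_nn (x := b - u) (by linarith) (by linarith)
  positivity

lemma s_out {a b u : ℝ} (h0 : 0 ≤ a) (h1 : a ≤ b) (h2 : b ≤ 1) (h3 : 0 ≤ u) (h4 : u ≤ 1)
    (h : u ≤ a ∨ b ≤ u) : s a b (c u) ≤ 0 := by
  rw [s_c, mul_assoc]
  rcases h with h | h
  · linarith [mul_nonpos_of_nonpos_of_nonneg (sin_np (x := u - a) (by linarith) (by linarith))
      (sin_nn (x := b - u) (by linarith) (by linarith))]
  · linarith [mul_nonpos_of_nonneg_of_nonpos (sin_nn (x := u - a) (by linarith) (by linarith))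
      (sin_np (x := b - u) (by linarith) (by linarith))]

lemma mem_seg {p q z : ℂ} (hp : ‖p‖ = 1) (hq : ‖q‖ = 1) (hpq : p ≠ q) (hz : ‖z‖ < 1)
    (h : det p q z = 0) : z ∈ openSegment ℝ p q := by
  have h1 : 0 < Complex.normSq (q - p) := Complex.normSq_pos.2 (sub_ne_zero.2 hpq.symm)
  have h2 : Complex.normSq p = 1 := by rw [← Complex.sq_norm, hp]; norm_num
  have h3 : Complex.normSq q = 1 := by rw [← Complex.sq_norm, hq]; norm_num
  have h4 : Complex.normSq z < 1 := by rw [← Complex.sq_norm]; nlinarith [norm_nonneg z]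
  simp only [Complex.normSq_apply, Complex.sub_re, Complex.sub_im] at h1 h2 h3 h4
  rw [det] at h
  obtain ⟨t, ht⟩ : ∃ t, t * ((q.re - p.re) * (q.re - p.re) + (q.im - p.im) * (q.im - p.im)) =
    (z.re - p.re) * (q.re - p.re) + (z.im - p.im) * (q.im - p.im) := ⟨_, div_mul_cancel₀ _ h1.ne'⟩
  have e1 : z.re = p.re + t * (q.re - p.re) :=
    mul_right_cancel₀ h1.ne' (by linear_combination -(q.re - p.re) * ht - (q.im - p.im) * h)
  have e2 : z.im = p.im + t * (q.im - p.im) :=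
    mul_right_cancel₀ h1.ne' (by linear_combination -(q.im - p.im) * ht + (q.re - p.re) * h)
  have : 0 < t * (1 - t) := by
    refine (mul_pos_iff_of_pos_right h1).1 ?_
    rw [e1, e2] at h4
    linear_combination h4 - (1 - t) * h2 - t * h3
  rw [openSegment_eq_image']
  refine ⟨t, ⟨by nlinarith, by nlinarith⟩, Complex.ext ?_ ?_⟩
  · simp [e1]
  · simp [e2]

lemma mem_hull {p q r z : ℂ} (h1 : 0 < det p q z) (h2 : 0 < det q r z) (h3 : 0 < det r p z) :
    z ∈ convexHull ℝ ({p, q, r} : Set ℂ) := by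
  have hD : 0 < det p q z + det q r z + det r p z := by positivity
  have := (convex_convexHull ℝ ({p, q, r} : Set ℂ)).centerMass_mem (t := Finset.univ)
    (w := ![det q r z, det r p z, det p q z]) (z := ![p, q, r])
    (fun i _ => by fin_cases i <;> simp <;> positivity)
    (by simp [Fin.sum_univ_three]; positivity)
    (fun i _ => subset_convexHull _ _ (by fin_cases i <;> simp))
  convert this
  simp only [Finset.centerMass, Fin.sum_univ_three, Matrix.cons_val]
  rw [eq_inv_smul_iff₀ (by positivity)]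
  apply Complex.ext <;> simp [det] <;> ring

def Lam : Set (Circle × Circle) :=
  {p | ∃ a b, L a b ∧ b < 1 ∧ (p = (c a, c b) ∨ p = (c b, c a))}

lemma c_ne {a b : ℝ} (h : L a b) (hb : b < 1) : c a ≠ c b := fun e =>
  h.bd.2.1.ne (c_inj e (by linarith [h.bd]) (by linarith [h.bd]))

lemma c_01 : c 0 = c 1 := by simpa using (c_add 0 1).symm

lemma mem_of_ne {a b : ℝ} (h : L a b) (hne : c a ≠ c b) : b < 1 := by
  cases h with
  | top => exact absurd c_01 hne
  | fan n => exact sigmoid_lt_one _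
  | sub n h => exact sigmoid_lt_one _

lemma arc {a b u v : ℝ} (h : L a b) (hb : b < 1) (h' : L u v) (hv : v < 1)
    (h1 : c u ∉ ({c a, c b} : Set Circle)) (h2 : c v ∉ ({c a, c b} : Set Circle)) :
    ∃ S, IsPreconnected S ∧ S ⊆ ({c a, c b} : Set Circle)ᶜ ∧ c u ∈ S ∧ c v ∈ S := by
  have b1 := h.bd
  have b2 := h'.bd
  have n1 : u ≠ a := fun e => h1 (by simp [e])
  have n2 : u ≠ b := fun e => h1 (by simp [e])
  have n3 : v ≠ a := fun e => h2 (by simp [e])
  have n4 : v ≠ b := fun e => h2 (by simp [e])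
  have u1 := h.unl h'
  have u2 := h'.unl h
  by_cases hc : u < a ∧ b < v
  · refine ⟨c '' Icc v (u + 1), isPreconnected_Icc.image _ c_cont.continuousOn, ?_,
      ⟨u + 1, ⟨by linarith, le_rfl⟩, by simpa using c_add u 1⟩, ⟨v, ⟨le_rfl, by linarith⟩, rfl⟩⟩
    rintro _ ⟨t, ht, rfl⟩ (e | e)
    · have := c_inj e (by linarith [ht.2]) (by linarith [ht.1])
      linarith [ht.1]
    · have := c_inj e (by linarith [ht.2]) (by linarith [ht.1])
      linarith [ht.1]
  · refine ⟨c '' Icc u v, isPreconnected_Icc.image _ c_cont.continuousOn, ?_,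
      ⟨u, ⟨le_rfl, by linarith⟩, rfl⟩, ⟨v, ⟨by linarith, le_rfl⟩, rfl⟩⟩
    rintro _ ⟨t, ht, rfl⟩ (e | e)
    · obtain rfl := c_inj e (by linarith [ht.2]) (by linarith [ht.1])
      have k1 := ht.1.lt_of_ne n1
      have k2 := ht.2.lt_of_ne n3.symm
      exact (n4.lt_or_gt).elim (fun k => u2 ⟨k1, k2, k⟩) fun k => hc ⟨k1, k⟩
    · obtain rfl := c_inj e (by linarith [ht.2]) (by linarith [ht.1])
      have k1 := ht.1.lt_of_ne n2
      have k2 := ht.2.lt_of_ne n4.symm
      exact (n1.lt_or_gt).elim (fun k => hc ⟨k, k2⟩) fun k => u1 ⟨k, k1, k2⟩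

theorem isLam : IsLamination Lam where
  nonempty := ⟨_, _, _, L.fan 0, sigmoid_lt_one _, Or.inl rfl⟩
  symm := by
    rintro _ ⟨a, b, h, hb, rfl | rfl⟩
    exacts [⟨a, b, h, hb, Or.inr rfl⟩, ⟨a, b, h, hb, Or.inl rfl⟩]
  ne := by
    rintro _ ⟨a, b, h, hb, rfl | rfl⟩
    exacts [c_ne h hb, (c_ne h hb).symm]
  closed := by
    intro p hp hne
    have hc : IsClosed ((fun x : ℝ × ℝ => (c x.1, c x.2)) '' K ∪
        (fun x : ℝ × ℝ => (c x.2, c x.1)) '' K) :=
      ((K_compact.image (by have := c_cont; fun_prop)).union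
        (K_compact.image (by have := c_cont; fun_prop))).isClosed
    have := hc.closure_subset_iff.2 (show Lam ⊆ _ by
      rintro _ ⟨a, b, h, hb, rfl | rfl⟩
      exacts [Or.inl ⟨_, h.mem, rfl⟩, Or.inr ⟨_, h.mem, rfl⟩]) hp
    rcases this with ⟨x, hx, rfl⟩ | ⟨x, hx, rfl⟩ <;> rcases K_cases hx with e | e
    · exact absurd (congrArg c e) hne
    · exact ⟨_, _, e, mem_of_ne e hne, Or.inl rfl⟩
    · exact absurd (congrArg c e.symm) hne
    · exact ⟨_, _, e, mem_of_ne e (Ne.symm hne), Or.inr rfl⟩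
  unlinked := by
    rintro p ⟨a, b, h, hb, hp⟩ q ⟨u, v, h', hv, hq⟩ ⟨h1, h2, h3⟩
    have e : ({p.1, p.2} : Set Circle) = {c a, c b} := by
      rcases hp with rfl | rfl
      exacts [rfl, pair_comm _ _]
    rw [e] at h1 h2 h3
    rcases hq with rfl | rfl
    · obtain ⟨S, k1, k2, k3, k4⟩ := arc h hb h' hv h1 h2
      exact h3 (k1.subset_connectedComponentIn k3 k2 k4)
    · obtain ⟨S, k1, k2, k3, k4⟩ := arc h hb h' hv h2 h1
      exact h3 (k1.subset_connectedComponentIn k4 k2 k3)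

lemma s_ne {a b : ℝ} (h : L a b) (hb : b < 1) {z : ℂ} (hz : z ∈ off Lam) : s a b z ≠ 0 := fun e =>
  hz.2 (mem_iUnion₂.2 ⟨_, ⟨a, b, h, hb, Or.inl rfl⟩, mem_seg (Circle.norm_coe _) (Circle.norm_coe _)
    (fun e => c_ne h hb (Subtype.ext e)) (mem_ball_zero_iff.1 hz.1) (by rw [det_eq, e, mul_zero])⟩)

def Ok (k : ℕ) (B : ℝ → ℝ) : Prop :=
  Continuous B ∧ (∀ a b, L a b → L (B a) (B b)) ∧ StrictMono B ∧
    ∀ u v, u ≤ v → B v - B u ≤ (v - u) * (1 / 2) ^ k

def Tri (a b g : ℝ) : Set ℂ := {z | ‖z‖ < 1 ∧ s a b z < 0 ∧ s b g z < 0 ∧ 0 < s a g z}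

lemma find {z : ℂ} (hz : z ∈ off Lam) :
    ∃ a b g, L a b ∧ L b g ∧ L a g ∧ g < 1 ∧ z ∈ Tri a b g := by
  by_contra hn
  have hz1 := mem_ball_zero_iff.1 hz.1
  have key : ∀ k, ∃ B, Ok k B ∧ 0 < s (B 0) (B 1) z := by
    intro k
    induction k with
    | zero =>
      refine ⟨id, ⟨continuous_id, fun _ _ h => h, strictMono_id, by simp⟩, ?_⟩
      simp only [s, id, zero_add, mul_one, sub_zero, cos_pi, sin_pi]
      linarith [Complex.re_le_norm z]
    | succ k ih =>
      obtain ⟨B, ⟨b1, b2, b3, b4⟩, hB⟩ := ih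
      have hc : Continuous fun u => s (B 0) (B u) z := by unfold s; fun_prop
      have t1 := ((hc.tendsto 1).comp (tendsto_sigmoid_atTop.comp
        tendsto_intCast_atTop_atTop)).eventually (lt_mem_nhds hB)
      have t2 := ((hc.tendsto 0).comp (tendsto_sigmoid_atBot.comp
        (tendsto_intCast_atBot_iff.2 tendsto_id))).eventually (gt_mem_nhds (show s (B 0) (B 0) z < 0 by
          have := s_le (B 0) (B 0) z
          rw [sub_self, mul_zero, cos_zero] at this
          linarith))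
      obtain ⟨N, hN⟩ := eventually_atTop.1 t1
      obtain ⟨n, hn1, hn2⟩ := Int.exists_greatest_of_bdd
        (P := fun n : ℤ => s (B 0) (B (sigmoid n)) z < 0)
        ⟨N, fun m hm => by by_contra h; exact (hN m (not_le.1 h).le).not_gt hm⟩ t2.exists
      have l1 := b2 _ _ (L.fan n)
      have l2 := b2 _ _ (L.step n)
      have l3 := b2 _ _ (L.fan (n + 1))
      have hg : B (sigmoid (n + 1)) < 1 := (b3 (sigmoid_lt_one _)).trans_le (b2 _ _ L.top).bd.2.2
      have h3 : ¬ s (B 0) (B (sigmoid (n + 1 : ℤ))) z < 0 := fun h => by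
        have := hn2 _ h
        omega
      push_cast at l3 h3
      refine ⟨fun u => B (sigmoid (n + u)), ⟨b1.comp (continuous_sigmoid.comp (by fun_prop)),
        fun a b h => b2 _ _ (L.sub n h), fun u v h => b3 (sigmoid_lt (by linarith)),
        fun u v h => (b4 _ _ (sigmoid_le (by linarith))).trans ?_⟩, ?_⟩
      · have := sig_lip (show n + u ≤ n + v by linarith)
        rw [pow_succ', ← mul_assoc]
        gcongr
        linarith
      · simp only [add_zero]
        by_contra h4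
        exact hn ⟨_, _, _, l1, l2, l3, hg, hz1, hn1, (not_lt.1 h4).lt_of_ne (s_ne l2 hg hz),
          (not_lt.1 h3).lt_of_ne (s_ne l3 hg hz).symm⟩
  have ht : Tendsto (fun k : ℕ => cos (π * (1 / 2) ^ k)) atTop (𝓝 (cos (π * 0))) :=
    (continuous_cos.tendsto _).comp
      ((tendsto_pow_atTop_nhds_zero_of_lt_one (by norm_num) (by norm_num)).const_mul π)
  rw [mul_zero, cos_zero] at ht
  obtain ⟨k, hk⟩ := (ht.eventually (lt_mem_nhds hz1)).exists
  obtain ⟨B, ⟨-, -, b3, b4⟩, hB⟩ := key k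
  have h1 := b4 0 1 zero_le_one
  have h2 := b3 zero_lt_one
  have h3 : (1 / 2 : ℝ) ^ k ≤ 1 := pow_le_one₀ (by norm_num) (by norm_num)
  have := cos_le_cos_of_nonneg_of_le_pi (x := π * (B 1 - B 0)) (y := π * (1 / 2) ^ k)
    (mul_nonneg pi_pos.le (by linarith)) (by nlinarith [pi_pos])
    (mul_le_mul_of_nonneg_left (by linarith) pi_pos.le)
  linarith [s_le (B 0) (B 1) z]

lemma Tri_seg {a b g : ℝ} {p z : ℂ} (hp : ‖p‖ ≤ 1) (h1 : s a b p ≤ 0) (h2 : s b g p ≤ 0)
    (h3 : 0 ≤ s a g p) (hz : z ∈ Tri a b g) : openSegment ℝ p z ⊆ Tri a b g := by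
  intro w hw
  refine ⟨?_, ?_, ?_, ?_⟩
  · obtain ⟨x, y, hx, hy, hxy, rfl⟩ := hw
    refine (norm_add_le _ _).trans_lt ?_
    rw [norm_smul, norm_smul, Real.norm_of_nonneg hx.le, Real.norm_of_nonneg hy.le]
    nlinarith [hz.1]
  · obtain ⟨x, y, hx, hy, hxy, e⟩ := s_seg a b hw
    nlinarith [hz.2.1]
  · obtain ⟨x, y, hx, hy, hxy, e⟩ := s_seg b g hw
    nlinarith [hz.2.2.1]
  · obtain ⟨x, y, hx, hy, hxy, e⟩ := s_seg a g hw
    nlinarith [hz.2.2.2]

lemma Tri_convex (a b g : ℝ) : Convex ℝ (Tri a b g) :=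
  convex_iff_openSegment_subset.2 fun _ hp _ hz =>
    Tri_seg hp.1.le hp.2.1.le hp.2.2.1.le hp.2.2.2.le hz

lemma Tri_off {a b g : ℝ} (l1 : L a b) (l2 : L b g) (l3 : L a g) : Tri a b g ⊆ off Lam := by
  intro z hz
  refine ⟨mem_ball_zero_iff.2 hz.1, fun h => ?_⟩
  obtain ⟨p, ⟨u, v, h, -, hp⟩, hs⟩ := mem_iUnion₂.1 h
  have hs' : z ∈ openSegment ℝ (c u : ℂ) (c v) := by
    rcases hp with rfl | rfl
    exacts [hs, by rwa [openSegment_symm]]
  obtain ⟨a0, ab, b1⟩ := l1.bd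
  obtain ⟨-, bg, g1⟩ := l2.bd
  obtain ⟨u0, uv, v1⟩ := h.bd
  have : (a ≤ u ∧ v ≤ b) ∨ (b ≤ u ∧ v ≤ g) ∨ ((u ≤ a ∨ g ≤ u) ∧ (v ≤ a ∨ g ≤ v)) := by
    have := l1.unl h
    have := l2.unl h
    have := l3.unl h
    have := h.unl l2
    have := h.unl l3
    grind
  rcases this with k | k | k
  · obtain ⟨x, y, hx, hy, hxy, e⟩ := s_seg a b hs'
    have := s_in a0 k.1 (uv.le.trans k.2) b1
    have := s_in a0 (k.1.trans uv.le) k.2 b1
    nlinarith [hz.2.1]
  · obtain ⟨x, y, hx, hy, hxy, e⟩ := s_seg b g hs'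
    have := s_in (a0.trans ab.le) k.1 (uv.le.trans k.2) g1
    have := s_in (a0.trans ab.le) (k.1.trans uv.le) k.2 g1
    nlinarith [hz.2.2.1]
  · obtain ⟨x, y, hx, hy, hxy, e⟩ := s_seg a g hs'
    have := s_out a0 (ab.trans bg).le g1 u0 (uv.le.trans v1) k.1
    have := s_out a0 (ab.trans bg).le g1 (u0.trans uv.le) v1 k.2
    nlinarith [hz.2.2.2]

theorem veryFull : VeryFull Lam := by
  classical
  intro z hz
  obtain ⟨a, b, g, l1, l2, l3, hg, ht⟩ := find hz
  obtain ⟨a0, ab, b1⟩ := l1.bd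
  obtain ⟨-, bg, g1⟩ := l2.bd
  have cs : ∀ a b, Continuous (s a b) := fun a b => by unfold s; fun_prop
  have hcomp : connectedComponentIn (off Lam) z = Tri a b g := by
    refine Subset.antisymm ?_
      ((Tri_convex a b g).isPreconnected.subset_connectedComponentIn ht (Tri_off l1 l2 l3))
    refine isPreconnected_connectedComponentIn.subset_left_of_subset_union
      (v := {z | 0 < s a b z} ∪ {z | 0 < s b g z} ∪ {z | s a g z < 0})
      ((isOpen_lt continuous_norm continuous_const).inter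
        ((isOpen_lt (cs _ _) continuous_const).inter ((isOpen_lt (cs _ _) continuous_const).inter
          (isOpen_lt continuous_const (cs _ _)))))
      (((isOpen_lt continuous_const (cs _ _)).union (isOpen_lt continuous_const (cs _ _))).union
        (isOpen_lt (cs _ _) continuous_const)) ?_ (fun w hw => ?_)
      ⟨z, mem_connectedComponentIn hz, ht⟩
    · rw [Set.disjoint_left]
      rintro w ⟨-, k1, k2, k3⟩ ((k | k) | k)
      exacts [k1.not_gt k, k2.not_gt k, k3.not_gt k]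
    · have hw' := connectedComponentIn_subset _ _ hw
      rcases (s_ne l1 (bg.trans hg) hw').lt_or_gt with k1 | k1
      · rcases (s_ne l2 hg hw').lt_or_gt with k2 | k2
        · rcases (s_ne l3 hg hw').lt_or_gt with k3 | k3
          · exact Or.inr (Or.inr k3)
          · exact Or.inl ⟨mem_ball_zero_iff.1 hw'.1, k1, k2, k3⟩
        · exact Or.inr (Or.inl (Or.inr k2))
      · exact Or.inr (Or.inl (Or.inl k1))
  refine ⟨{c a, c b, c g}, (Finset.card_eq_three.2
    ⟨_, _, _, c_ne l1 (bg.trans hg), c_ne l3 hg, c_ne l2 hg, rfl⟩).ge, ?_⟩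
  rw [hcomp, Finset.coe_insert, Finset.coe_pair, image_insert_eq, image_pair]
  apply Subset.antisymm
  · refine closure_minimal (fun w hw => mem_hull ?_ ?_ ?_)
      ((Set.toFinite _).isCompact_convexHull ℝ).isClosed
    · rw [det_eq]
      nlinarith [mul_pos_of_neg_of_neg (neg_neg_of_pos (sin_pos' (x := b - a) (by linarith)
        (by linarith))) hw.2.1]
    · rw [det_eq]
      nlinarith [mul_pos_of_neg_of_neg (neg_neg_of_pos (sin_pos' (x := g - b) (by linarith)
        (by linarith))) hw.2.2.1]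
    · have : det (c g) (c a) w = -det (c a) (c g) w := by simp only [det]; ring
      rw [this, det_eq]
      nlinarith [mul_pos (sin_pos' (x := g - a) (by linarith) (by linarith)) hw.2.2.2]
  · refine convexHull_min ?_ (Tri_convex a b g).closure
    have hv : ∀ u, (u = a ∨ u = b ∨ u = g) → (c u : ℂ) ∈ closure (Tri a b g) := fun u hu =>
      closure_mono (Tri_seg (Circle.norm_coe _).le
        (s_out a0 ab.le b1 (by grind) (by grind) (by grind))
        (s_out (by grind) bg.le g1 (by grind) (by grind) (by grind))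
        (s_in a0 (by grind) (by grind) g1) ht)
        (segment_subset_closure_openSegment (left_mem_segment ℝ _ _))
    rintro _ (rfl | rfl | rfl)
    exacts [hv _ (Or.inl rfl), hv _ (Or.inr (Or.inl rfl)), hv _ (Or.inr (Or.inr rfl))]

lemma e_bd (F : ℝ ≃o ℝ) {u : ℝ} (h0 : 0 ≤ u) (h1 : u ≤ 1) : 0 ≤ e F u ∧ e F u ≤ 1 :=
  ⟨e_out F (Or.inl le_rfl) ▸ (e_mono F).monotone h0, e_out F (Or.inr le_rfl) ▸ (e_mono F).monotone h1⟩

lemma e_lt (F : ℝ ≃o ℝ) {u : ℝ} (h1 : u < 1) : e F u < 1 := e_out F (Or.inr le_rfl) ▸ e_mono F h1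

noncomputable def ph (F : ℝ ≃o ℝ) (p : Circle) : Circle := c (e F (c_surj p).choose)

lemma ph_c (F : ℝ ≃o ℝ) {u : ℝ} (h0 : 0 ≤ u) (h1 : u ≤ 1) : ph F (c u) = c (e F u) := by
  obtain ⟨k0, k1, k2⟩ := (c_surj (c u)).choose_spec
  rcases h1.eq_or_lt with rfl | h1
  · rw [ph, c_inj (k2.trans c_01.symm) (by linarith) (by linarith), e_out _ (Or.inl le_rfl),
      e_out _ (Or.inr le_rfl), c_01]
  · rw [ph, c_inj k2 (by linarith) (by linarith)]

lemma ph_mul (F F' : ℝ ≃o ℝ) (p : Circle) : ph (F * F') p = ph F (ph F' p) := by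
  obtain ⟨u, h0, h1, rfl⟩ := c_surj p
  rw [ph_c _ h0 h1.le, ph_c _ h0 h1.le, ph_c _ (e_bd _ h0 h1.le).1 (e_bd _ h0 h1.le).2, e_mul]

lemma ph_one (p : Circle) : ph 1 p = p := by
  obtain ⟨u, h0, h1, rfl⟩ := c_surj p
  rw [ph_c _ h0 h1.le, e_one]

lemma ph_cont (F : ℝ ≃o ℝ) : Continuous (ph F) := by
  have h1 : Continuous fun u : Icc (0 : ℝ) 1 => c u := c_cont.comp continuous_subtype_val
  rw [(h1.isClosedMap.isQuotientMap h1 fun p => by
    obtain ⟨u, h0, h1, rfl⟩ := c_surj p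
    exact ⟨⟨u, h0, h1.le⟩, rfl⟩).continuous_iff]
  exact ((c_cont.comp (X F).continuous).comp continuous_subtype_val).congr
    fun u => (ph_c F u.2.1 u.2.2).symm

noncomputable def Ph : (ℝ ≃o ℝ) →* (Circle ≃ₜ Circle) :=
  MonoidHom.mk' (fun F =>
    { toFun := ph F
      invFun := ph F⁻¹
      left_inv := fun p => by rw [← ph_mul, inv_mul_cancel, ph_one]
      right_inv := fun p => by rw [← ph_mul, mul_inv_cancel, ph_one]
      continuous_toFun := ph_cont F
      continuous_invFun := ph_cont F⁻¹ }) fun F F' => Homeomorph.ext (ph_mul F F')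

lemma Ph_apply (F : ℝ ≃o ℝ) (p : Circle) : Ph F p = ph F p := rfl

lemma Ph_inj : Function.Injective Ph := by
  intro F F' h
  ext y
  have := congrArg (fun g : Circle ≃ₜ Circle => g (c (sigmoid y))) h
  simp only [Ph_apply, ph_c _ (sigmoid_nonneg y) (sigmoid_le_one y), e_sig] at this
  exact sigmoid_injective (c_inj this (by linarith [sigmoid_pos (F' y), sigmoid_lt_one (F y)])
    (by linarith [sigmoid_pos (F y), sigmoid_lt_one (F' y)]))

lemma sign_det {u v w : ℝ} (u0 : 0 ≤ u) (u1 : u < 1) (v0 : 0 ≤ v) (v1 : v < 1) (w0 : 0 ≤ w)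
    (w1 : w < 1) : SignType.sign (det (c u) (c v) (c w)) =
      -(SignType.sign (v - u) * SignType.sign (w - u) * SignType.sign (v - w)) := by
  rw [det_eq, s_c, show ∀ x y z : ℝ, -2 * x * (2 * y * z) = -(4 * (x * y * z)) from
    fun _ _ _ => by ring, Left.sign_neg, sign_mul, sign_mul, sign_mul, sign_pos (by norm_num),
    one_mul, sign_sin, sign_sin, sign_sin] <;> linarith

lemma sign_e (F : ℝ ≃o ℝ) (u v : ℝ) : SignType.sign (e F u - e F v) = SignType.sign (u - v) := by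
  rcases lt_trichotomy u v with h | rfl | h
  · rw [sign_neg (sub_neg.2 h), sign_neg (sub_neg.2 (e_mono F h))]
  · simp
  · rw [sign_pos (sub_pos.2 h), sign_pos (sub_pos.2 (e_mono F h))]

lemma orPres (F : ℝ ≃o ℝ) : OrPres (Ph F) := by
  intro p q r h
  obtain ⟨u, u0, u1, rfl⟩ := c_surj p
  obtain ⟨v, v0, v1, rfl⟩ := c_surj q
  obtain ⟨w, w0, w1, rfl⟩ := c_surj r
  rw [← sign_eq_one_iff, sign_det u0 u1 v0 v1 w0 w1] at h
  simp only [Ph_apply, ph_c _ u0 u1.le, ph_c _ v0 v1.le, ph_c _ w0 w1.le]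
  rw [← sign_eq_one_iff, sign_det (e_bd F u0 u1.le).1 (e_lt F u1) (e_bd F v0 v1.le).1 (e_lt F v1)
    (e_bd F w0 w1.le).1 (e_lt F w1), sign_e, sign_e, sign_e, h]

lemma maps {F : ℝ ≃o ℝ} (h : Good F) : MapsTo (Prod.map (Ph F) (Ph F)) Lam Lam := by
  rintro p ⟨a, b, hab, hb, hp⟩
  obtain ⟨a0, ab, b1⟩ := hab.bd
  refine ⟨_, _, h a b hab, e_lt F hb, ?_⟩
  rw [← ph_c F a0 (ab.le.trans b1), ← ph_c F (a0.trans ab.le) b1]
  rcases hp with rfl | rfl
  exacts [Or.inl rfl, Or.inr rfl]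

theorem result : ∃ (G : Type) (_ : Group G) (ρ : G →* (Circle ≃ₜ Circle))
    (Λ : Set (Circle × Circle)), Group.FG G ∧ Function.Injective ρ ∧ (∀ g, OrPres (ρ g)) ∧
      IsLamination Λ ∧ VeryFull Λ ∧ Λ.Countable ∧ (∀ g, Prod.map (ρ g) (ρ g) '' Λ = Λ) ∧
      ∃ g : G, g ≠ 1 ∧ ∀ (H : Type) [Group H] [Finite H] (φ : G →* H), φ g = 1 := by
  refine ⟨G, inferInstance, Ph.comp G.subtype, Lam, Group.closure_finite_fg _,
    Ph_inj.comp Subtype.val_injective, fun g => orPres _, isLam, veryFull, ?_, fun g => ?_, nonRF⟩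
  · refine ((L_countable.image fun x => (c x.1, c x.2)).union
      (L_countable.image fun x => (c x.2, c x.1))).mono ?_
    rintro _ ⟨a, b, h, -, rfl | rfl⟩
    exacts [Or.inl ⟨(a, b), h, rfl⟩, Or.inr ⟨(a, b), h, rfl⟩]
  · refine (maps (G_good g.2)).image_subset.antisymm fun p hp =>
      ⟨_, maps (G_good (g⁻¹).2) hp, ?_⟩
    change (ph g (ph g⁻¹ p.1), ph g (ph g⁻¹ p.2)) = p
    simp only [← ph_mul, mul_inv_cancel, ph_one]

end Pool.Agent.Results.MP_939d63_gt.Wreath
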